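import Pool.Agent.Y6.G.Defs
import Pool.Agent.Y6.F.Stm

/-! Statements of the steps (Euler equations with a skew-adjoint Fourier multiplier with polynomial
symbols). -/

open Set Filter Topology
open scoped ComplexConjugate

set_option autoImplicit false

namespace Pool.Agent.Y6.G

open Pool.Agent.Y6.M (qd mq Kz Ker Adm Dat TSol Wt KSol cX cY Uth εc x0 Mains MDat Z3 C3 Coef dt cr
  cj kc nsq len adv leray Kop IsField IsSol energy enstr Md hs br Frame cK sgz)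
open Pool.Agent.Y6.F (DSol Mx κr Prt rk code cd ln NM S_CODE S_IBP S_LIMR S_UC)

/-! ### The concrete system -/

/-- levels and signs -/
def S_LV : Prop :=
  (∀ n, lvM (Xm n) = n ∧ lvM (br (Xm n)) = n ∧ lvM (Ym n) = n + 1 ∧ lvM (br (Ym n)) = n + 1) ∧
  (∀ n, σM (Xm n) = 0 ∧ σM (br (Xm n)) = 0 ∧ σM (Ym n) = 0 ∧ σM (br (Ym n)) = 0) ∧
  (∀ i, σM i = 0 → ∃ n, i = Xm n ∨ i = br (Xm n) ∨ i = Ym n ∨ i = br (Ym n)) ∧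
  (∀ i, σM i ≠ 0 → lvM i = cd i ∧ σM i ^ 2 = 1) ∧
  (∀ i, br (br i) = i ∧ lvM (br i) = lvM i ∧ σM (br i) = -σM i) ∧
  (∀ m, {i | lvM i ≤ m}.Finite) ∧
  (∀ i, σM i = 0 → αM (lvM i) ^ 2 ≤ NM i ∧ NM i ≤ 2 * αM (lvM i) ^ 2) ∧
  Function.Injective Xm ∧ Function.Injective Ym ∧
  (∀ n m, kx n ≠ -kx m) ∧ ∀ n m, kx n + kx (n + 1) ≠ -(kx m + kx (m + 1))

/-- sums of frequencies of the chain, first part -/
def S_SUMSa : Prop :=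
  (∀ n a b, σM a = 0 → σM b = 0 → a.1.1 + b.1.1 = kx n →
    (a = Ym n ∧ b = br (Xm (n + 1))) ∨ (b = Ym n ∧ a = br (Xm (n + 1))) ∨
      ∃ m, n = m + 1 ∧ ((a = Ym m ∧ b = br (Xm m)) ∨ (b = Ym m ∧ a = br (Xm m)))) ∧
  (∀ n a b, σM a = 0 → σM b = 0 → a.1.1 + b.1.1 = kx n + kx (n + 1) →
    (a = Xm n ∧ b = Xm (n + 1)) ∨ (b = Xm n ∧ a = Xm (n + 1))) ∧
  ∀ i a : Md, σM i = 0 → σM a = 0 → i.1.1 ≠ a.1.1 → (lvM i : ℤ) ≤ nsq (i.1.1 - a.1.1) + 1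

/-- sums of frequencies of the chain, second part -/
def S_SUMSb : Prop :=
  (∀ k : Z3, k ≠ 0 → {p : Md × Md | σM p.1 = 0 ∧ σM p.2 = 0 ∧ p.1.1.1 + p.2.1.1 = k}.Finite ∧
    {p : Md × Md | σM p.1 = 0 ∧ σM p.2 = 0 ∧ p.1.1.1 + p.2.1.1 = k}.ncard ≤ 32) ∧
  (∀ i a b : Md, σM a = 0 → σM b = 0 → a.1.1 + b.1.1 = i.1.1 →
    (ln a ≤ 4 * ln i ∧ ln b ≤ 4 * ln i) ∨
      ∃ n, ln i = αM n ∧ αM (n + 1) ≤ ln a ∧ αM (n + 1) ≤ ln b) ∧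
  ∀ i a : Md, σM i = 0 → σM a = 0 → i.1.1 ≠ a.1.1 → 4 * len (i.1.1 - a.1.1) < ln i →
    ∃ n, lvM i = n + 1 ∧ lvM a = n + 1 ∧ len (i.1.1 - a.1.1) = αM n ∧ i.2 ≠ a.2

/-- sums of frequencies of the chain -/
def S_SUMS : Prop := S_SUMSa ∧ S_SUMSb

/-- vector identities -/
def S_VEC : Prop := ∀ h, Frame h →
  (∀ n, ‖GM h n‖ = 2 * Real.pi * (1 / (2 * √2)) * ((αM n + αM (n + 1)) / ρM n - 1)) ∧
  (∀ i a b : Md, ‖cK h i a b‖ ≤ 2 * Real.pi * ln i ∧ ‖cK h i a b‖ ≤ 2 * Real.pi * ln b) ∧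
  (∀ i a b : Md, a.2 ≠ i.2 → b.1.1 + a.1.1 = i.1.1 →
    ‖cK h i b a‖ * (ln a + ln i) ≤ 2 * Real.pi * ln a * ln b) ∧
  ∀ i a b : Md, cK h i a b ≠ 0 → a.1.1 + b.1.1 = i.1.1 ∧ npar a.1.1 b.1.1

/-- the coefficients of the chain -/
def S_CHN : Prop := S_VEC → ∀ h, Frame h → ChnG αM (GM h) bM dM

/-- the kernel -/
def S_KERM : Prop := S_LV → S_CODE → S_SUMS → ∀ h, Frame h → Ker lvM br σM (cK h)

/-- the main modes -/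
def S_TAB : Prop := S_LV → S_SUMS → ∀ h, Frame h → Mains lvM br σM (cK h) (GM h) bM dM Xm Ym

/-- the weights -/
def S_WTM : Prop := S_LV → S_CODE → ∀ h, Frame h → Wt lvM σM αM (cK h) NM

/-- the data -/
def S_DATM : Prop := S_LV → Dat br σM vM ∧ MDat αM Xm Ym vM

/-! ### The speeds -/

/-- the speeds of the modes -/
def S_SPD : Prop := S_LV → S_CODE → ∀ P : Par,
  (∀ i, SP P (lvM i) * σM i = ωZ P i) ∧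
  (∀ k : Z3, ev (mp P) (-k) = -ev (mp P) k ∧ ev (np P) (-k) = -ev (np P) k) ∧
  (∀ i : Md, ωZ P i = ev (mp P) i.1.1 + (if i.2 then 1 else -1) * ev (np P) i.1.1) ∧
  (mp P).totalDegree ≤ 2201 ∧ (np P).totalDegree ≤ 2201

/-- the triads of modes which are not rotated: the modes are `±t e_j`, `±t^61 e_(j+1)` (helicity
`+`) and `±(t e_j + t^61 e_(j+1))` (helicity `-`) -/
def S_ARI1 : Prop := ∀ i a b : Md, unr i → unr a → unr b → a.1.1 + b.1.1 = i.1.1 →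
  npar a.1.1 b.1.1 → ∃ (j : Fin 3) (t : ℤ), t ≠ 0 ∧ ∀ w W y : Z3,
    w = (fun l => if l = j then t else 0) → W = (fun l => if l = j + 1 then t ^ 61 else 0) →
    y = w + W →
    ((a.1.1 = w ∧ b.1.1 = W ∧ i.1.1 = y ∧ a.2 = true ∧ b.2 = true ∧ i.2 = false) ∨
     (b.1.1 = w ∧ a.1.1 = W ∧ i.1.1 = y ∧ a.2 = true ∧ b.2 = true ∧ i.2 = false) ∨
     (a.1.1 = y ∧ b.1.1 = -W ∧ i.1.1 = w ∧ a.2 = false ∧ b.2 = true ∧ i.2 = true) ∨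
     (b.1.1 = y ∧ a.1.1 = -W ∧ i.1.1 = w ∧ b.2 = false ∧ a.2 = true ∧ i.2 = true) ∨
     (a.1.1 = y ∧ b.1.1 = -w ∧ i.1.1 = W ∧ a.2 = false ∧ b.2 = true ∧ i.2 = true) ∨
     (b.1.1 = y ∧ a.1.1 = -w ∧ i.1.1 = W ∧ b.2 = false ∧ a.2 = true ∧ i.2 = true))

/-- the main modes are not rotated -/
def S_UNR : Prop := S_LV → S_ARI1 → (∀ i, σM i = 0 → unr i) ∧ ∀ i a b : Md, unr i → unr a →
  unr b → a.1.1 + b.1.1 = i.1.1 → npar a.1.1 b.1.1 → (σM i = 0 ∨ σM a = 0 ∨ σM b = 0) →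
  σM i = 0 ∧ σM a = 0 ∧ σM b = 0

/-- a large rotated mode in every triad which is not a triad of modes without rotation -/
def S_ARI2 : Prop := ∀ i a b : Md, a.1.1 + b.1.1 = i.1.1 → npar a.1.1 b.1.1 →
  ¬ (unr a ∧ unr b ∧ unr i) →
  ∃ k : Md, (k = a ∨ k = b ∨ k = i) ∧ ¬ unr k ∧ mx i (a, b) ≤ (4 * ln k) ^ 61

/-- the coefficient of the parameter `(s, r, j)` in the detuning -/
noncomputable def Fc (i a b : Md) (q : Bool × Fin 15 × Fin 3) : ℝ :=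
  (if a.2 = q.1 then (EZ q.1 a.1.1 : ℝ) * (vz q.2.1 a.1.1 : ℝ) ^ (1831 + 2 * q.2.2.1) else 0) +
  (if b.2 = q.1 then (EZ q.1 b.1.1 : ℝ) * (vz q.2.1 b.1.1 : ℝ) ^ (1831 + 2 * q.2.2.1) else 0) -
  (if i.2 = q.1 then (EZ q.1 i.1.1 : ℝ) * (vz q.2.1 i.1.1 : ℝ) ^ (1831 + 2 * q.2.2.1) else 0)

/-- the linear forms: for all nonzero vectors `a, b, a + b, a - b, 2a + b, a + 2b` there is one
which does not vanish at them and is large at a given one of the first three -/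
def S_LIN : Prop := ∃ c : ℝ, 0 < c ∧ ∀ a b : Z3, npar a b → ∀ k : Z3, (k = a ∨ k = b ∨ k = a + b) →
  ∃ r : Fin 15, vz r a ≠ 0 ∧ vz r b ≠ 0 ∧ vz r (a + b) ≠ 0 ∧ vz r (a - b) ≠ 0 ∧
    vz r (a + a + b) ≠ 0 ∧ vz r (a + b + b) ≠ 0 ∧ c * len k ≤ |(vz r k : ℝ)|

/-- a large coefficient in the detuning -/
def S_VAN : Prop := S_LIN → ∃ c : ℝ, 0 < c ∧ ∀ i a b k : Md, a.1.1 + b.1.1 = i.1.1 →
  npar a.1.1 b.1.1 → (k = a ∨ k = b ∨ k = i) → ¬ unr k →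
  ∃ q, c * ln k ^ 1831 ≤ mx i (a, b) ^ 4 * |Fc i a b q|

/-- generic parameters -/
def S_GEN : Prop := ∀ (I J : Type) [Countable I] [Fintype J] (F : I → J → ℝ) (δ : I → ℝ),
  (∀ τ, 0 ≤ δ τ) → Summable (fun τ => δ τ / (⨆ j, |F τ j|)) → (∀ τ, ∃ j, F τ j ≠ 0) →
  ∃ P : J → ℝ, ∀ τ, δ τ ≤ |∑ j, P j * F τ j|

/-! ### Static estimates -/

/-- lattice sums -/
def S_LAT : Prop :=
  (Summable (fun a : Md => (ln a ^ 4)⁻¹) ∧ ∑' a : Md, (ln a ^ 4)⁻¹ ≤ 1000) ∧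
  (S_LV → Summable (fun a : Md => if σM a = 0 then (ln a)⁻¹ else 0) ∧
    ∑' a : Md, (if σM a = 0 then (ln a)⁻¹ else 0) ≤ 1)

/-- existence of good parameters -/
def S_GAP : Prop := S_ARI2 → S_VAN → S_LIN → S_GEN → S_CODE → S_LAT → ∃ P : Par, GapZ P

/-- properties of the envelope -/
def S_ENV : Prop := (∀ M, Adq M →
  (∀ r s, 0 < r → r ≤ s → env M s ≤ env M r) ∧
  (∀ r, 1 ≤ r → env M (r / 2) ≤ r * env M r) ∧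
  (∀ n r, αM n ≤ 8 * r → r ≤ 4 * αM n → env M r = M n) ∧
  (∀ n r, 0 < r → r ≤ 4 * αM n → M n ≤ env M r) ∧
  (∀ r, 0 < env M r ∧ env M r ≤ 1) ∧
  ∀ r s, 1 ≤ r → r ≤ s → s ≤ r + 1 → env M r ≤ 8 * env M s) ∧
  (∀ M M', Adq M → Adq M' → (∀ n, M n ≤ M' n) → ∀ r, 0 < r → env M r ≤ env M' r) ∧
  ∀ (k : ℕ) (C : ℝ), ∃ C', ∀ M, Adq M → (∀ n, αM n ^ k * M n ≤ C) →
    ∀ r, 1 ≤ r → r ^ k * env M r ≤ C'

/-- bound of the quadratic term -/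
def S_RATE : Prop := S_LV → S_CODE → S_SUMS → S_VEC → S_LAT → S_ENV →
  ∀ h, Frame h → ∀ M, Adq M → ∀ i,
    Summable (fun p : Md × Md => ‖cK h i p.1 p.2‖ * eF M p.1 * eF M p.2) ∧
    ∑' p : Md × Md, ‖cK h i p.1 p.2‖ * eF M p.1 * eF M p.2 ≤ rF M i

/-- contribution of the triads with rotation -/
def S_STA : Prop := S_LV → S_CODE → S_VEC → S_LAT → S_ENV →
  ∀ h, Frame h → ∀ M, Adq M → ∀ i,
    Summable (fun p : Md × Md => if 0 < D0 i p then tm h M i p else 0) ∧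
    ∑' p : Md × Md, (if 0 < D0 i p then tm h M i p else 0) ≤
      (10 ^ 20)⁻¹ / 10 * (ln i ^ 7)⁻¹ * env M (ln i)

/-- contribution of the triads without rotation -/
def S_STB : Prop := S_LV → S_CODE → S_VEC → S_ENV → S_ARI1 → S_UNR →
  ∀ h, Frame h → ∀ M, Adq M → ∀ i, σM i ≠ 0 →
    Summable (fun p : Md × Md => if 0 < D0 i p then 0 else tm h M i p) ∧
    ∑' p : Md × Md, (if 0 < D0 i p then 0 else tm h M i p) ≤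
      (10 ^ 20)⁻¹ / 10 * (ln i ^ 7)⁻¹ * env M (ln i)

/-- perturbation of the main modes -/
def S_PRT : Prop := S_LV → S_CODE → S_SUMS → S_VEC → S_LAT → S_ENV →
  ∀ h, Frame h → ∀ M, Adq M → ∀ z : Md → ℂ, (∀ i, ‖z i‖ ≤ eF M i) → ∀ i, σM i = 0 →
    ‖qd (cK h) z i - mq σM (cK h) z i‖ ≤ κr αM (lvM i) * M (lvM i)

/-! ### Dynamics -/

/-- the chain of a solution -/
def xs (z : Md → ℝ → ℂ) (n : ℕ) : ℝ → ℂ := z (Xm n)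

def ys (z : Md → ℝ → ℂ) (n : ℕ) : ℝ → ℂ := z (Ym n)

/-- the sizes of the levels of a solution -/
noncomputable def Ms (z : Md → ℝ → ℂ) (t : ℝ) (n : ℕ) : ℝ := Mx αM (xs z) (ys z) n t

/-- the sizes are admissible -/
def S_MS : Prop := S_LV → ∀ (z : Md → ℝ → ℂ) (θ : ℝ), 0 ≤ θ → (∀ i, ContinuousOn (z i) (Icc 0 θ)) →
  (∀ i, ∀ t ∈ Icc 0 θ, z (br i) t = conj (z i t)) → (∀ i, ∀ t ∈ Icc 0 θ, ‖z i t‖ ≤ 1) →
  Cnd αM (xs z) (ys z) θ → (∀ t ∈ Icc 0 θ, Adq (Ms z t)) ∧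
  (∀ s ∈ Icc 0 θ, ∀ t ∈ Icc 0 θ, s ≤ t → ∀ n, Ms z s n ≤ Ms z t n) ∧
  ∀ i, σM i = 0 → ∀ s ∈ Icc 0 θ, ∀ t ∈ Icc 0 θ, s ≤ t → ‖z i s‖ ≤ Ms z t (lvM i)

/-- the bootstrap: the other modes are relatively small -/
def S_BTC : Prop := S_LV → S_CODE → S_ENV → S_RATE → S_IBP → S_MS → S_SUMS → S_VEC →
  S_LAT → S_STA → S_STB → S_ARI1 → S_UNR → S_KERM → S_DATM → ∀ S : ℕ → ℝ, Gap S → ∀ h, Frame h →
  ∀ (N : ℕ) (z : Md → ℝ → ℂ),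
  TSol S lvM br σM (cK h) vM N z → ∀ θ ∈ Icc (0 : ℝ) 1, Cnd αM (xs z) (ys z) θ →
  ∀ i, σM i ≠ 0 → ∀ t ∈ Icc 0 θ, ‖z i t‖ ≤ (10 ^ 20)⁻¹ * (ln i ^ 7)⁻¹ * env (Ms z t) (ln i)

/-- Blow-up for the system of the modes. -/
def S_BLOWF : Prop := ∀ S : ℕ → ℝ, Gap S → ∀ h, Frame h → ∃ (T : ℝ) (z : Md → ℝ → ℂ), 0 < T ∧
    T ≤ 1 ∧ KSol S lvM br σM (cK h) NM T z ∧ (∀ i, z i 0 = vM i) ∧
    (∀ (T' : ℝ) (z' : Md → ℝ → ℂ), 0 < T' → KSol S lvM br σM (cK h) NM T' z' →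
      (∀ i, z' i 0 = vM i) → T' ≤ T ∧ ∀ i, ∀ t ∈ Ico 0 T', z' i t = z i t) ∧
    (∀ t ∈ Ico 0 T, Summable (fun a => ‖z a t‖ ^ 2) ∧
      ∑' a, ‖z a t‖ ^ 2 = ∑' a, ‖vM a‖ ^ 2) ∧
    ∀ M : ℝ, ∃ t ∈ Ico 0 T, ∃ i, σM i = 0 ∧ M < αM (lvM i) * ‖z i t‖

/-- The main theorem, before scaling. -/
def S_MAIN1 : Prop := ∃ (m n : MvPolynomial (Fin 3) ℝ) (T : ℝ) (V : ℝ → Coef),
  (∀ k, ev m (-k) = -ev m k) ∧ (∀ k, ev n (-k) = -ev n k) ∧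
  m.totalDegree ≤ 2201 ∧ n.totalDegree ≤ 2201 ∧ 0 < T ∧ T ≤ 1 ∧ IsSol (ev m) (ev n) T V ∧
  (∀ (T' : ℝ) (W : ℝ → Coef), 0 < T' → IsSol (ev m) (ev n) T' W → W 0 = V 0 →
    T' ≤ T ∧ ∀ t ∈ Ico 0 T', W t = V t) ∧
  (∀ t ∈ Ico 0 T, energy (V t) = energy (V 0)) ∧
  ∀ M : ℝ, ∃ t ∈ Ico 0 T, M < enstr (V t)

/-- The main theorem: the symbols are odd polynomials with coefficients as small as we like, and
the initial data are as small as we like. -/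
def S_MAINP : Prop := ∀ (q : ℕ) (ε : ℝ), 0 < ε → ∃ (m n : MvPolynomial (Fin 3) ℝ) (T : ℝ)
  (V : ℝ → Coef), (∀ k, ev m (-k) = -ev m k) ∧ (∀ k, ev n (-k) = -ev n k) ∧
  m.totalDegree ≤ 2201 ∧ n.totalDegree ≤ 2201 ∧ (∀ d, |m.coeff d| ≤ ε ∧ |n.coeff d| ≤ ε) ∧
  (∀ k j, len k ^ q * ‖V 0 k j‖ ≤ ε) ∧ 0 < T ∧ IsSol (ev m) (ev n) T V ∧
  (∀ (T' : ℝ) (W : ℝ → Coef), 0 < T' → IsSol (ev m) (ev n) T' W → W 0 = V 0 →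
    T' ≤ T ∧ ∀ t ∈ Ico 0 T', W t = V t) ∧
  (∀ t ∈ Ico 0 T, energy (V t) = energy (V 0)) ∧
  ∀ M : ℝ, ∃ t ∈ Ico 0 T, M < enstr (V t)

/-- scaling: `λ V (λ t)` -/
def S_SCALE : Prop := S_MAIN1 → S_MAINP

/-- the passage to fields -/
def S_PH3 : Prop := S_LV → (∃ P : Par, GapZ P) → S_SPD → S_CODE → S_DATM → S_BLOWF → S_MAIN1

end Pool.Agent.Y6.G
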