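import Pool.Agent.Y6.F.Defs2

/-!
Definitions for the Euler equations with an additional skew-adjoint Fourier multiplier whose
symbols are polynomials.
-/

open Set Filter Topology
open scoped ComplexConjugate

set_option autoImplicit false

namespace Pool.Agent.Y6.G

open Pool.Agent.Y6.M (qd mq Kz Ker Adm Dat TSol Wt KSol cX cY Uth εc x0 Mains MDat Z3 C3 Coef dt cr
  cj kc nsq len adv leray Kop IsField IsSol energy enstr Md hs br Frame cK sgz)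
open Pool.Agent.Y6.F (DSol Mx κr Prt rk code cd ln NM)

/-! ### The chain -/

/-- Coefficients of the chain: the triad `n` consists of `x n`, `x (n + 1)`, `y n`. -/
structure ChnG (α : ℕ → ℝ) (G : ℕ → ℂ) (b d : ℕ → ℝ) : Prop where
  A0 : 10 ^ 100 ≤ α 0
  step : ∀ n, α (n + 1) = α n ^ 61
  dpos : ∀ n, 0 < d n
  db : ∀ n, d n ≤ b n
  bd : ∀ n, b n ≤ 2 * d n
  lo : ∀ n, α n ≤ ‖G n‖ * d n
  hi : ∀ n, ‖G n‖ * b n ≤ 3 * α n

/-- the levels `≥ 1` are below twice their thresholds on `[0, θ]`, and each level is much smaller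
than the level before -/
def Cnd (α : ℕ → ℝ) (x y : ℕ → ℝ → ℂ) (θ : ℝ) : Prop :=
  (∀ n, ∀ t ∈ Icc 0 θ, ‖x (n + 1) t‖ ≤ 2 * Uth α (n + 1) ∧ ‖y n t‖ ≤ 2 * Uth α (n + 1)) ∧
  ∀ n, ∀ t ∈ Icc 0 θ, α n ^ 20 * Mx α x y (n + 1) t ≤ Mx α x y n t

/-- growth of the levels of the chain -/
def S_LVL : Prop := ∀ (α : ℕ → ℝ) (G : ℕ → ℂ) (b d : ℕ → ℝ), ChnG α G b d →
  ∀ (N : ℕ) (θ : ℝ) (x y f g : ℕ → ℝ → ℂ), 0 ≤ θ → θ ≤ 1 →
  DSol G b d N 0 θ x y f g → (∀ n ≤ N, x n 0 = (x0 α n : ℝ)) → (∀ n, y n 0 = 0) →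
  Cnd α x y θ → Prt α x y f g θ →
  (∀ t ∈ Icc (0 : ℝ) θ, 49 / 100 ≤ ‖x 0 t‖) ∧
  ∃ ν : ℕ → ℝ → ℝ, ∀ n < N, ν n 0 = εc α (n + 1) ∧
    (∀ t ∈ Icc (0 : ℝ) θ, 0 < ν n t ∧ 48 / 100 * ν n t ≤ ‖x (n + 1) t‖ ∧
      ‖x (n + 1) t‖ ≤ 102 / 100 * ν n t ∧ ‖y n t‖ ≤ 102 / 100 * ν n t) ∧
    (∀ s t c : ℝ, 0 ≤ s → s ≤ t → t ≤ θ → 0 ≤ c → (∀ r ∈ Icc s t, c ≤ ‖x n r‖) →
      ν n s * Real.exp (9 / 10 * α n * c * (t - s)) ≤ 101 / 100 * ν n t) ∧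
    (∀ s t : ℝ, 0 ≤ s → s ≤ t → t ≤ θ →
      ν n t ≤ ν n s * Real.exp (9 * α n * (t - s)))

/-- the cascade in the truncated chain -/
def S_CHAIN : Prop := ∀ (α : ℕ → ℝ) (G : ℕ → ℂ) (b d : ℕ → ℝ), ChnG α G b d →
  ∀ (N : ℕ) (x y f g : ℕ → ℝ → ℂ), DSol G b d (N + 1) 0 1 x y f g →
  (∀ n, N + 1 < n → ∀ t ∈ Icc (0 : ℝ) 1, x n t = 0) →
  (∀ n, N + 1 ≤ n → ∀ t ∈ Icc (0 : ℝ) 1, y n t = 0) →
  (∀ n ≤ N + 1, x n 0 = (x0 α n : ℝ)) → (∀ n, y n 0 = 0) →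
  (∀ θ ∈ Icc (0 : ℝ) 1, Cnd α x y θ → Prt α x y f g θ) →
  ∃ T, 0 < T ∧ T ≤ 1 ∧ Cnd α x y T ∧
    (Uth α (N + 1) ≤ ‖x (N + 1) T‖ ∨ Uth α (N + 1) ≤ ‖y N T‖)

/-- persistence of the decay -/
def S_PERSR : Prop := ∀ (α : ℕ → ℝ) (G : ℕ → ℂ) (b d : ℕ → ℝ), ChnG α G b d →
  ∀ (k : ℕ) (M : ℝ), ∃ C : ℝ, ∀ (N : ℕ) (θ : ℝ) (x y f g : ℕ → ℝ → ℂ), 0 ≤ θ → θ ≤ 1 →
  DSol G b d N 0 θ x y f g → (∀ n ≤ N, x n 0 = (x0 α n : ℝ)) → (∀ n, y n 0 = 0) →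
  Cnd α x y θ → Prt α x y f g θ →
  (∀ n, ∀ t ∈ Icc 0 θ, α n * ‖x n t‖ ≤ M ∧ α (n + 1) * ‖y n t‖ ≤ M) →
  ∀ n ≤ N, ∀ t ∈ Icc 0 θ, α n ^ k * Mx α x y n t ≤ C

/-- local bounds -/
def S_LOCR : Prop := ∀ (α : ℕ → ℝ) (G : ℕ → ℂ) (b d : ℕ → ℝ), ChnG α G b d →
  ∀ X : ℝ, ∃ δ M : ℝ, 0 < δ ∧ ∀ (N : ℕ) (s e : ℝ) (x y f g : ℕ → ℝ → ℂ), 0 ≤ s → s ≤ e →
  e ≤ 1 → e ≤ s + δ → DSol G b d N 0 e x y f g →
  (∀ n, N < n → ∀ t ∈ Icc 0 e, x n t = 0) → (∀ n, N ≤ n → ∀ t ∈ Icc 0 e, y n t = 0) →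
  Cnd α x y e → Prt α x y f g e → (∀ n, α n * Mx α x y n s ≤ X) →
  ∀ n, ∀ t ∈ Icc 0 e, α n * Mx α x y n t ≤ M

/-! ### The concrete system -/

/-- the lengths of the frequencies of the chain -/
def al : ℕ → ℕ
  | 0 => 10 ^ 100
  | n + 1 => al n ^ 61

/-- the frequencies of the modes `x`: `k n = α n e_{n mod 3}` -/
def kx (n : ℕ) : Z3 := fun j => if j.1 = n % 3 then (al n : ℤ) else 0

lemma al_pos (n : ℕ) : 0 < al n := by
  induction n with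
  | zero => exact pow_pos (by norm_num) _
  | succ n ih => exact pow_pos ih _

lemma kx_ne (n : ℕ) : kx n ≠ 0 := by
  intro h
  have h1 := congrFun h ⟨n % 3, Nat.mod_lt _ (by norm_num)⟩
  have h2 : kx n ⟨n % 3, Nat.mod_lt _ (by norm_num)⟩ = (al n : ℤ) := if_pos rfl
  rw [h2] at h1
  have := al_pos n
  simp at h1
  omega

lemma ky_ne (n : ℕ) : kx n + kx (n + 1) ≠ 0 := by
  intro h
  have h1 := congrFun h ⟨n % 3, Nat.mod_lt _ (by norm_num)⟩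
  have h2 : kx n ⟨n % 3, Nat.mod_lt _ (by norm_num)⟩ = (al n : ℤ) := if_pos rfl
  have h3 : kx (n + 1) ⟨n % 3, Nat.mod_lt _ (by norm_num)⟩ = 0 := if_neg (by
    show ¬ n % 3 = (n + 1) % 3
    omega)
  rw [Pi.add_apply, h2, h3] at h1
  have := al_pos n
  simp at h1
  omega

/-- the modes `x` of the chain -/
def Xm (n : ℕ) : Md := (⟨kx n, kx_ne n⟩, true)

/-- the modes `y` of the chain -/
def Ym (n : ℕ) : Md := (⟨kx n + kx (n + 1), ky_ne n⟩, false)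

/-- the main modes of the level `n` -/
def ML (n : ℕ) (i : Md) : Prop :=
  i = Xm n ∨ i = br (Xm n) ∨ ∃ m, n = m + 1 ∧ (i = Ym m ∨ i = br (Ym m))

/-- the level of a mode -/
noncomputable def lvM (i : Md) : ℕ :=
  open Classical in
  if h : ∃ n, ML n i then Nat.find h else cd i

/-- the sign of the rotation of a mode, zero for the main modes -/
noncomputable def σM (i : Md) : ℝ :=
  open Classical in
  if ∃ n, ML n i then 0 else (sgz i.1.1 : ℝ)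

/-- the lengths, as real numbers -/
noncomputable def αM (n : ℕ) : ℝ := (al n : ℝ)

/-- the coefficients of the chain -/
noncomputable def GM (h : Md → C3) (n : ℕ) : ℂ :=
  2 * Real.pi * dt (cj (h (Ym n))) (cr (h (Xm n)) (h (Xm (n + 1))))

/-- the length of the frequency of `y n` -/
noncomputable def ρM (n : ℕ) : ℝ := √(αM n ^ 2 + αM (n + 1) ^ 2)

noncomputable def bM (n : ℕ) : ℝ := αM n + ρM n

noncomputable def dM (n : ℕ) : ℝ := αM (n + 1) - αM n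

/-- the initial data -/
noncomputable def vM (i : Md) : ℂ :=
  open Classical in
  if h : ∃ n, i = Xm n ∨ i = br (Xm n) then ((x0 αM (Nat.find h) : ℝ) : ℂ) else 0

/-! ### The symbols -/

/-- the factors which vanish on the coordinate axes (helicity `+`), on the curves
`k (j + 1) = k j ^ 61`, `k (j + 2) = 0` (helicity `-`) -/
def EZ (s : Bool) (k : Z3) : ℤ :=
  if s then (k 0 ^ 2 + k 1 ^ 2) * (k 1 ^ 2 + k 2 ^ 2) * (k 2 ^ 2 + k 0 ^ 2)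
  else ((k 1 - k 0 ^ 61) ^ 2 + k 2 ^ 2) * ((k 2 - k 1 ^ 61) ^ 2 + k 0 ^ 2) *
    ((k 0 - k 2 ^ 61) ^ 2 + k 1 ^ 2)

/-- linear forms -/
def vz (r : Fin 15) (k : Z3) : ℤ := k 0 + (r.1 : ℤ) * k 1 + (r.1 : ℤ) ^ 2 * k 2

/-- the parameters -/
abbrev Par : Type := Bool × Fin 15 × Fin 3 → ℝ

/-- the speed of a mode -/
noncomputable def ωZ (P : Par) (i : Md) : ℝ :=
  (EZ i.2 i.1.1 : ℝ) * ∑ r : Fin 15, ∑ j : Fin 3,
    P (i.2, r, j) * (vz r i.1.1 : ℝ) ^ (1831 + 2 * j.1)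

/-- the modes which are not rotated -/
def unr (i : Md) : Prop := EZ i.2 i.1.1 = 0

/-- the speeds, as a function of the code -/
noncomputable def SP (P : Par) (c : ℕ) : ℝ :=
  open Classical in
  if h : ∃ i : Md, cd i = c ∧ sgz i.1.1 = 1 then ωZ P h.choose else 0

/-- the polynomials -/
noncomputable def Ep (s : Bool) : MvPolynomial (Fin 3) ℝ :=
  if s then (MvPolynomial.X 0 ^ 2 + MvPolynomial.X 1 ^ 2) *
    (MvPolynomial.X 1 ^ 2 + MvPolynomial.X 2 ^ 2) * (MvPolynomial.X 2 ^ 2 + MvPolynomial.X 0 ^ 2)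
  else ((MvPolynomial.X 1 - MvPolynomial.X 0 ^ 61) ^ 2 + MvPolynomial.X 2 ^ 2) *
    ((MvPolynomial.X 2 - MvPolynomial.X 1 ^ 61) ^ 2 + MvPolynomial.X 0 ^ 2) *
    ((MvPolynomial.X 0 - MvPolynomial.X 2 ^ 61) ^ 2 + MvPolynomial.X 1 ^ 2)

noncomputable def vp (r : Fin 15) : MvPolynomial (Fin 3) ℝ :=
  MvPolynomial.X 0 + MvPolynomial.C (r.1 : ℝ) * MvPolynomial.X 1 +
    MvPolynomial.C ((r.1 : ℝ) ^ 2) * MvPolynomial.X 2

noncomputable def ωp (P : Par) (s : Bool) : MvPolynomial (Fin 3) ℝ :=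
  Ep s * ∑ r : Fin 15, ∑ j : Fin 3, MvPolynomial.C (P (s, r, j)) * vp r ^ (1831 + 2 * j.1)

/-- the two symbols -/
noncomputable def mp (P : Par) : MvPolynomial (Fin 3) ℝ :=
  MvPolynomial.C (1 / 2) * (ωp P true + ωp P false)

noncomputable def np (P : Par) : MvPolynomial (Fin 3) ℝ :=
  MvPolynomial.C (1 / 2) * (ωp P true - ωp P false)

/-- the value of a polynomial at a frequency -/
noncomputable def ev (p : MvPolynomial (Fin 3) ℝ) (k : Z3) : ℝ :=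
  MvPolynomial.eval (fun j => (k j : ℝ)) p

/-! ### Envelopes -/

/-- admissible sizes of the levels -/
structure Adq (M : ℕ → ℝ) : Prop where
  zero : M 0 = 1
  lo : ∀ n, εc αM n ≤ M n
  hi : ∀ n, M (n + 1) ≤ 2 * Uth αM (n + 1)
  rel : ∀ n, αM n ^ 20 * M (n + 1) ≤ M n

/-- the number `n` with `4 α (n - 1) < r ≤ 4 α n` -/
noncomputable def idx (r : ℝ) : ℕ := sInf {n | r ≤ 4 * αM n}

/-- the envelope -/
noncomputable def env (M : ℕ → ℝ) (r : ℝ) : ℝ :=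
  match idx r with
  | 0 => 1
  | n + 1 => max (M (n + 1)) (M n * (4 * αM n / r) ^ (2 * n + 4))

/-- the bounds of the modes -/
noncomputable def eF (M : ℕ → ℝ) (i : Md) : ℝ :=
  open Classical in
  if σM i = 0 then env M (ln i) else (10 ^ 20)⁻¹ * (ln i ^ 7)⁻¹ * env M (ln i)

/-- the bounds of the derivatives -/
noncomputable def rF (M : ℕ → ℝ) (i : Md) : ℝ := 10 ^ 4 * ln i ^ 2 * env M (ln i)

/-- the largest of the three lengths -/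
noncomputable def mx (i : Md) (p : Md × Md) : ℝ := max (max (ln p.1) (ln p.2)) (ln i)

/-- lower bound of the detuning, zero if no mode of the triad is rotated -/
noncomputable def D0 (i : Md) (p : Md × Md) : ℝ :=
  open Classical in
  if unr p.1 ∧ unr p.2 ∧ unr i then 0 else 10 ^ 60 * mx i p ^ 16

/-- the contribution of a pair to the bound of the mode `i` -/
noncomputable def tm (h : Md → C3) (M : ℕ → ℝ) (i : Md) (p : Md × Md) : ℝ :=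
  open Classical in
  if 0 < D0 i p then ‖cK h i p.1 p.2‖ / D0 i p *
    (2 * eF M p.1 * eF M p.2 + (rF M p.1 * eF M p.2 + eF M p.1 * rF M p.2))
  else ‖cK h i p.1 p.2‖ * eF M p.1 * eF M p.2

/-- not parallel -/
def npar (k l : Z3) : Prop :=
  ¬ (k 0 * l 1 = k 1 * l 0 ∧ k 1 * l 2 = k 2 * l 1 ∧ k 2 * l 0 = k 0 * l 2)

/-- the detuning of the speeds `S` -/
def Gap (S : ℕ → ℝ) : Prop := ∀ i a b : Md, a.1.1 + b.1.1 = i.1.1 → npar a.1.1 b.1.1 →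
  ¬ (unr a ∧ unr b ∧ unr i) → 10 ^ 60 * mx i (a, b) ^ 16 ≤
    |S (lvM a) * σM a + S (lvM b) * σM b - S (lvM i) * σM i|

/-- the same for the speeds `ωZ P` -/
def GapZ (P : Par) : Prop := ∀ i a b : Md, a.1.1 + b.1.1 = i.1.1 → npar a.1.1 b.1.1 →
  ¬ (unr a ∧ unr b ∧ unr i) → 10 ^ 60 * mx i (a, b) ^ 16 ≤ |ωZ P a + ωZ P b - ωZ P i|

end Pool.Agent.Y6.G
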