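import Pool.Agent.Y6.G.Main2
import Pool.Agent.Y312.EP.Fam

/-! The main theorem. -/

set_option autoImplicit false

namespace Pool.Agent.Y6.G

theorem t_MAINR : S_MAINR := mainR_of Pool.Agent.Y312.EP.Fam.t_FAM

end Pool.Agent.Y6.G
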