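import Pool.Agent.Y6.G.Blow2
import Pool.Agent.Y153.EM.Gal
import Pool.Agent.Y154.EM.UNI
import Pool.Agent.Y710.EF.CODE
import Pool.Agent.Y44.EF.IBP
import Pool.Agent.Y38.EF.LIMR
import Pool.Agent.Y44.EF.UC

/-! Assembly. -/

set_option autoImplicit false

namespace Pool.Agent.Y6.G

open Pool.Agent.Y6.M (C3 Md Frame)
open Pool.Agent.Y6.F (S_CODE)

theorem ctx_of (lv : S_LV) (suma : S_LV → S_SUMSa) (sumb : S_LV → S_SUMSb) (vec : S_VEC)
    (chn : S_CHN) (kerm : S_KERM) (tab : S_TAB) (wtm : S_WTM) (datm : S_DATM) (unr' : S_UNR)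
    (ari1 : S_ARI1) (lat : S_LAT) (envl : S_ENV) (rate : S_RATE) (sta : S_STA) (stb : S_STB)
    (prt : S_PRT) (ms : S_MS) (btc : S_BTC) (hC : S_CHAIN) (hP : S_PERSR) (hL : S_LOCR)
    (S : ℕ → ℝ) (hS : Gap S) (h : Md → C3) (hf : Frame h) : Ctx S h where
  lv := lv
  envl := envl
  ms := ms
  ker := kerm lv Pool.Agent.Y710.EF.CODE.t_CODE ⟨suma lv, sumb lv⟩ h hf
  chn := chn vec h hf
  mains := tab lv ⟨suma lv, sumb lv⟩ h hf
  wt := wtm lv Pool.Agent.Y710.EF.CODE.t_CODE h hf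
  dat := (datm lv).1
  mdat := (datm lv).2
  btc := btc lv Pool.Agent.Y710.EF.CODE.t_CODE envl rate Pool.Agent.Y44.EF.IBP.t_IBP ms
    ⟨suma lv, sumb lv⟩ vec lat sta stb ari1 unr' kerm datm S hS h hf
  prt := prt lv Pool.Agent.Y710.EF.CODE.t_CODE ⟨suma lv, sumb lv⟩ vec lat envl h hf
  code := Pool.Agent.Y710.EF.CODE.t_CODE
  chain := hC
  pers := hP
  loc := hL
  uc := Pool.Agent.Y44.EF.UC.t_UC

theorem main1_of (lv : S_LV) (suma : S_LV → S_SUMSa) (sumb : S_LV → S_SUMSb) (vec : S_VEC)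
    (chn : S_CHN) (kerm : S_KERM) (tab : S_TAB) (wtm : S_WTM) (datm : S_DATM) (unr' : S_UNR)
    (ari1 : S_ARI1) (lat : S_LAT) (envl : S_ENV) (rate : S_RATE) (sta : S_STA) (stb : S_STB)
    (prt : S_PRT) (ms : S_MS) (btc : S_BTC) (hC : S_CHAIN) (hP : S_PERSR) (hL : S_LOCR)
    (spd : S_SPD) (ari2 : S_ARI2) (lin : S_LIN) (van : S_VAN) (gen : S_GEN) (gap : S_GAP)
    (ph3 : S_PH3) : S_MAIN1 :=
  ph3 lv (gap ari2 van lin gen Pool.Agent.Y710.EF.CODE.t_CODE lat) spd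
    Pool.Agent.Y710.EF.CODE.t_CODE datm
    (t_BLOWF_of (fun S hS h hf => ctx_of lv suma sumb vec chn kerm tab wtm datm unr' ari1 lat envl
      rate sta stb prt ms btc hC hP hL S hS h hf) Pool.Agent.Y153.EM.t_GAL
      Pool.Agent.Y38.EF.LIMR.t_LIMR Pool.Agent.Y154.EM.UNI.t_UNI)

end Pool.Agent.Y6.G
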