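import Pool.Agent.Y6.G.Main0
import Pool.Agent.Y961.EP.LV
import Pool.Agent.Y756.EP.Sumsa
import Pool.Agent.Y265.EP.SumsB
import Pool.Agent.Y704.EP.VEC
import Pool.Agent.Y972.EP.Chn
import Pool.Agent.Y43.EP.KERM
import Pool.Agent.Y651.EP.Tab
import Pool.Agent.Y972.EP.Wtm
import Pool.Agent.Y246.EP.Datm
import Pool.Agent.Y454.EP.Unr
import Pool.Agent.Y932.EP.Ari1
import Pool.Agent.Y436.EP.LAT
import Pool.Agent.Y236.EP.Env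
import Pool.Agent.Y217.EP.Rate
import Pool.Agent.Y396.EP.STA
import Pool.Agent.Y396.EP.STB
import Pool.Agent.Y692.EP.PRT
import Pool.Agent.Y988.EP.MS
import Pool.Agent.Y293.EP.Btc
import Pool.Agent.Y532.EP.CH4
import Pool.Agent.Y338.EP.CH5
import Pool.Agent.Y348.EP.Ch6
import Pool.Agent.Y319.EP.CH3
import Pool.Agent.Y141.EF.Paira
import Pool.Agent.Y884.EF.PairB

/-! Assembly: blow-up for the system of the modes. -/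

set_option autoImplicit false

namespace Pool.Agent.Y6.G

theorem t_LV' : S_LV := Pool.Agent.Y961.EP.LV.t_LV

theorem t_CHAIN : S_CHAIN :=
  Pool.Agent.Y532.EP.CH4.t_CHAIN (Pool.Agent.Y319.EP.CH3.t_LVL Pool.Agent.Y141.EF.Paira.t_PAIRA
    (Pool.Agent.Y884.EF.PairB.t_PAIRB Pool.Agent.Y141.EF.Paira.t_PAIRA))

theorem t_BLOWF : S_BLOWF :=
  t_BLOWF_of (fun S hS h hf => ctx_of t_LV' Pool.Agent.Y756.EP.Sumsa.t_SUMSa
    Pool.Agent.Y265.EP.SUMSb.t_SUMSb Pool.Agent.Y704.EP.VEC.t_VEC Pool.Agent.Y972.EP.Chn.t_CHN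
    Pool.Agent.Y43.EP.KERM.t_KERM Pool.Agent.Y651.EP.Tab.t_TAB Pool.Agent.Y972.EP.Wtm.t_WTM
    Pool.Agent.Y246.EP.Datm.t_DATM Pool.Agent.Y454.EP.Unr.t_UNR Pool.Agent.Y932.EP.Ari1.t_ARI1
    Pool.Agent.Y436.EP.LAT.t_LAT Pool.Agent.Y236.EP.ENV.t_ENV Pool.Agent.Y217.EP.Rate.t_RATE
    Pool.Agent.Y396.EP.STA.t_STA Pool.Agent.Y396.EP.STB.t_STB
    (Pool.Agent.Y692.EP.PRT.t_PRT Pool.Agent.Y217.EP.Rate.t_RATE) Pool.Agent.Y988.EP.MS.t_MS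
    Pool.Agent.Y293.EP.BTC.t_BTC t_CHAIN Pool.Agent.Y338.EP.CH5.t_PERSR
    Pool.Agent.Y348.EP.Ch6.t_LOCR S hS h hf) Pool.Agent.Y153.EM.t_GAL
    Pool.Agent.Y38.EF.LIMR.t_LIMR Pool.Agent.Y154.EM.UNI.t_UNI

end Pool.Agent.Y6.G
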