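import Pool.Agent.Y6.G.Stm

/-! Blow-up for almost every operator of the family. -/

open Set Filter Topology
open scoped ComplexConjugate

set_option autoImplicit false

namespace Pool.Agent.Y6.G

open Pool.Agent.Y6.M (qd mq Kz Ker Adm Dat TSol Wt KSol cX cY Uth εc x0 Mains MDat Z3 C3 Coef dt cr
  cj kc nsq len adv leray Kop IsField IsSol energy enstr Md hs br Frame cK sgz)
open Pool.Agent.Y6.F (DSol Mx κr Prt rk code cd ln NM S_CODE S_IBP S_LIMR S_UC)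

/-- pairs of odd polynomials, the first vanishes on the coordinate axes, the second on the curves
`k (j + 1) = k j ^ 61`, `k (j + 2) = 0` -/
structure Adm2 (A B : MvPolynomial (Fin 3) ℝ) : Prop where
  oddA : ∀ k : Z3, ev A (-k) = -ev A k
  oddB : ∀ k : Z3, ev B (-k) = -ev B k
  axes : ∀ (j : Fin 3) (t : ℤ), ev A (fun l => if l = j then t else 0) = 0
  curves : ∀ (j : Fin 3) (t : ℤ),
    ev B (fun l => if l = j then t else if l = j + 1 then t ^ 61 else 0) = 0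

/-- the symbols: `A` for the helicity `+`, `B` for the helicity `-` -/
noncomputable def mQ (A B : MvPolynomial (Fin 3) ℝ) (k : Z3) : ℝ := (ev A k + ev B k) / 2

noncomputable def nQ (A B : MvPolynomial (Fin 3) ℝ) (k : Z3) : ℝ := (ev A k - ev B k) / 2

/-- the speed of a mode -/
noncomputable def ωQ (A B : MvPolynomial (Fin 3) ℝ) (i : Md) : ℝ :=
  if i.2 then ev A i.1.1 else ev B i.1.1

/-- the speeds, as a function of the code -/
noncomputable def SQ (A B : MvPolynomial (Fin 3) ℝ) (c : ℕ) : ℝ :=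
  open Classical in
  if h : ∃ i : Md, cd i = c ∧ sgz i.1.1 = 1 then ωQ A B h.choose else 0

/-- the detuning -/
def GapQ (κ : ℝ) (A B : MvPolynomial (Fin 3) ℝ) : Prop := ∀ i a b : Md, a.1.1 + b.1.1 = i.1.1 →
  npar a.1.1 b.1.1 → ¬ (unr a ∧ unr b ∧ unr i) →
  κ * mx i (a, b) ^ 16 ≤ |ωQ A B a + ωQ A B b - ωQ A B i|

/-- the speeds of the modes -/
def S_SPQ : Prop := S_LV → S_CODE → ∀ A B, Adm2 A B → ∀ i, SQ A B (lvM i) * σM i = ωQ A B i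

/-- almost every parameter is good -/
def S_AE : Prop := ∀ (I J : Type) [Countable I] [Fintype J] (F : I → J → ℝ) (δ : I → ℝ),
  (∀ τ, 0 ≤ δ τ) → Summable (fun τ => δ τ / (⨆ j, |F τ j|)) → (∀ τ, ∃ j, F τ j ≠ 0) →
  ∀ᵐ P : J → ℝ, ∃ κ : ℝ, 0 < κ ∧ ∀ τ, κ * δ τ ≤ |∑ j, P j * F τ j|

/-- large families -/
structure Fam {L : Type} [Fintype L] (A B : L → MvPolynomial (Fin 3) ℝ) : Prop where
  adm : ∀ l, Adm2 (A l) (B l)
  big : ∀ A' B' : MvPolynomial (Fin 3) ℝ, Adm2 A' B' → A'.totalDegree ≤ 2201 →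
    B'.totalDegree ≤ 2201 → ∃ c : L → ℝ, A' = ∑ l, MvPolynomial.C (c l) * A l ∧
      B' = ∑ l, MvPolynomial.C (c l) * B l

/-- almost every member of a large family has a detuning -/
def S_FAM : Prop := S_ARI2 → S_VAN → S_LIN → S_AE → S_CODE → S_LAT →
  ∀ (L : Type) [Fintype L] (A B : L → MvPolynomial (Fin 3) ℝ), Fam A B →
  ∀ᵐ c : L → ℝ, ∃ κ : ℝ, 0 < κ ∧
    GapQ κ (∑ l, MvPolynomial.C (c l) * A l) (∑ l, MvPolynomial.C (c l) * B l)

/-- blow-up with a large detuning, from a fixed initial field -/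
def S_MAINQ1 : Prop := ∃ V₀ : Coef, IsField V₀ ∧ ∀ A B, Adm2 A B → GapQ (10 ^ 60) A B →
  ∃ (T : ℝ) (V : ℝ → Coef), 0 < T ∧ V 0 = V₀ ∧ IsSol (mQ A B) (nQ A B) T V ∧
  (∀ (T' : ℝ) (W : ℝ → Coef), 0 < T' → IsSol (mQ A B) (nQ A B) T' W → W 0 = V 0 →
    T' ≤ T ∧ ∀ t ∈ Ico 0 T', W t = V t) ∧
  (∀ t ∈ Ico 0 T, energy (V t) = energy (V 0)) ∧
  ∀ M : ℝ, ∃ t ∈ Ico 0 T, M < enstr (V t)

/-- the passage to fields -/
def S_PH3Q : Prop := S_LV → S_SPQ → S_CODE → S_DATM → S_BLOWF → S_MAINQ1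

/-- blow-up from arbitrarily small data -/
def Blow (A B : MvPolynomial (Fin 3) ℝ) : Prop := ∀ (q : ℕ) (ε : ℝ), 0 < ε →
  ∃ (T : ℝ) (V : ℝ → Coef), (∀ k j, len k ^ q * ‖V 0 k j‖ ≤ ε) ∧ 0 < T ∧
  IsSol (mQ A B) (nQ A B) T V ∧
  (∀ (T' : ℝ) (W : ℝ → Coef), 0 < T' → IsSol (mQ A B) (nQ A B) T' W → W 0 = V 0 →
    T' ≤ T ∧ ∀ t ∈ Ico 0 T', W t = V t) ∧
  (∀ t ∈ Ico 0 T, energy (V t) = energy (V 0)) ∧
  ∀ M : ℝ, ∃ t ∈ Ico 0 T, M < enstr (V t)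

/-- scaling -/
def S_SCQ : Prop := S_MAINQ1 → ∀ A B, Adm2 A B → ∀ κ : ℝ, 0 < κ → GapQ κ A B → Blow A B

/-- The main theorem. -/
def S_MAINQ : Prop := ∀ (L : Type) [Fintype L] (A B : L → MvPolynomial (Fin 3) ℝ), Fam A B →
  ∀ᵐ c : L → ℝ, Blow (∑ l, MvPolynomial.C (c l) * A l) (∑ l, MvPolynomial.C (c l) * B l)

/-- the pairs `A l, B l` form a basis of the space of all admissible pairs of degree `≤ d` -/
def Bas (d N : ℕ) (A B : Fin N → MvPolynomial (Fin 3) ℝ) : Prop :=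
  (∀ l, Adm2 (A l) (B l) ∧ (A l).totalDegree ≤ d ∧ (B l).totalDegree ≤ d) ∧
  ∀ A' B' : MvPolynomial (Fin 3) ℝ, Adm2 A' B' → A'.totalDegree ≤ d → B'.totalDegree ≤ d →
    ∃! c : Fin N → ℝ, A' = ∑ l, MvPolynomial.C (c l) * A l ∧ B' = ∑ l, MvPolynomial.C (c l) * B l

/-- existence of bases -/
def S_BAS : Prop := ∀ d, ∃ (N : ℕ) (A B : Fin N → MvPolynomial (Fin 3) ℝ), Bas d N A B

/-- The main theorem: almost every operator of the order `≤ d`, for every `d ≥ 2201`. -/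
def S_MAINR : Prop := ∀ d : ℕ, 2201 ≤ d → ∃ (N : ℕ) (A B : Fin N → MvPolynomial (Fin 3) ℝ),
  Bas d N A B ∧
  ∀ᵐ c : Fin N → ℝ, Blow (∑ l, MvPolynomial.C (c l) * A l) (∑ l, MvPolynomial.C (c l) * B l)

end Pool.Agent.Y6.G
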