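import Pool.Agent.Y6.G.Main1
import Pool.Agent.Y6.G.Stm3
import Pool.Agent.Y872.EP.AE
import Pool.Agent.Y929.EP.SPQ
import Pool.Agent.Y363.EP.PH3Q
import Pool.Agent.Y815.EP.SCQ
import Pool.Agent.Y220.EP.Bas
import Pool.Agent.Y492.EP.Ari2
import Pool.Agent.Y523.EP.Van
import Pool.Agent.Y858.EP.Lin

/-! Assembly: almost every operator. -/

open MeasureTheory

set_option autoImplicit false

namespace Pool.Agent.Y6.G

theorem t_MAINQ1 : S_MAINQ1 :=
  Pool.Agent.Y363.EP.PH3Q.t_PH3Q t_LV' Pool.Agent.Y929.EP.SPQ.t_SPQ Pool.Agent.Y710.EF.CODE.t_CODE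
    Pool.Agent.Y246.EP.Datm.t_DATM t_BLOWF

theorem mainQ_of (fam : S_FAM) : S_MAINQ := by
  intro L _ A B hF
  have h1 := fam Pool.Agent.Y492.EP.Ari2.t_ARI2
    (Pool.Agent.Y523.EP.Van.t_VAN) Pool.Agent.Y858.EP.Lin.t_LIN Pool.Agent.Y872.EP.AE.t_AE
    Pool.Agent.Y710.EF.CODE.t_CODE Pool.Agent.Y436.EP.LAT.t_LAT L A B hF
  filter_upwards [h1] with c hc
  obtain ⟨κ, hκ, hg⟩ := hc
  refine Pool.Agent.Y815.EP.SCQ.t_SCQ t_MAINQ1 _ _ ?_ κ hκ hg
  refine ⟨fun k => ?_, fun k => ?_, fun j t => ?_, fun j t => ?_⟩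
  · simp only [ev, map_sum, map_mul, MvPolynomial.eval_C]
    rw [← Finset.sum_neg_distrib]
    refine Finset.sum_congr rfl fun l _ => ?_
    have h2 := (hF.adm l).oddA k
    simp only [ev] at h2
    rw [h2]
    ring
  · simp only [ev, map_sum, map_mul, MvPolynomial.eval_C]
    rw [← Finset.sum_neg_distrib]
    refine Finset.sum_congr rfl fun l _ => ?_
    have h2 := (hF.adm l).oddB k
    simp only [ev] at h2
    rw [h2]
    ring
  · simp only [ev, map_sum, map_mul, MvPolynomial.eval_C]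
    refine Finset.sum_eq_zero fun l _ => ?_
    have h2 := (hF.adm l).axes j t
    simp only [ev] at h2
    rw [h2, mul_zero]
  · simp only [ev, map_sum, map_mul, MvPolynomial.eval_C]
    refine Finset.sum_eq_zero fun l _ => ?_
    have h2 := (hF.adm l).curves j t
    simp only [ev] at h2
    rw [h2, mul_zero]

theorem mainR_of (fam : S_FAM) : S_MAINR := by
  intro d hd
  obtain ⟨N, A, B, hB⟩ := Pool.Agent.Y220.EP.Bas.t_BAS d
  refine ⟨N, A, B, hB, mainQ_of fam (Fin N) A B ⟨fun l => (hB.1 l).1, fun A' B' h1 h2 h3 => ?_⟩⟩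
  obtain ⟨c, hc, -⟩ := hB.2 A' B' h1 (h2.trans hd) (h3.trans hd)
  exact ⟨c, hc⟩

end Pool.Agent.Y6.G
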